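import Mathlib
import Pool.Agent.W437.HP.Link

set_option autoImplicit false

namespace Pool.Agent.Q2.UW

open Module Pool.Agent.W437.HP

section alg

variable {N : Type} [AddCommGroup N] [Module ℂ N] {w : N →ₗ[ℂ] N →ₗ[ℂ] ℂ}
  (hw : ∀ x, w x x = 0) (hn : ∀ x, (∀ y, w x y = 0) → x = 0)

/-- a raising operator has square zero -/
theorem sq_zero_of_raise {h x : Module.End ℂ N} (hh : h * h = 1) (hx : h * x - x * h = (2 : ℂ) • x) :
    x * x = 0 := by
  have h1 : h * (h * x - x * h) = (2 : ℂ) • (h * x) := by rw [hx, mul_smul_comm]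
  have h2 : (h * x - x * h) * h = (2 : ℂ) • (x * h) := by rw [hx, smul_mul_assoc]
  have h3 : h * (h * x - x * h) = x - h * x * h := by
    rw [mul_sub, ← mul_assoc, hh, one_mul, mul_assoc]
  have h4 : (h * x - x * h) * h = h * x * h - x := by
    rw [sub_mul, mul_assoc x, hh, mul_one]
  have h5 : (2 : ℂ) • (h * x + x * h) = 0 := by
    rw [smul_add, ← h1, ← h2, h3, h4]
    abel
  have h6 : h * x + x * h = 0 := (smul_eq_zero.1 h5).resolve_left two_ne_zero
  have h7 : h * x = x := by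
    have h8 : h * x - x * h = (2 : ℂ) • (h * x) := by
      rw [eq_neg_of_add_eq_zero_right h6, two_smul]
      abel
    rw [hx] at h8
    have h9 : (2 : ℂ) • (x - h * x) = 0 := by rw [smul_sub, ← h8, sub_self]
    exact (sub_eq_zero.1 ((smul_eq_zero.1 h9).resolve_left two_ne_zero)).symm
  have h8 : x * h = -x := by
    rw [eq_neg_of_add_eq_zero_right h6, h7]
  have h9 : x * x = -(x * x) := by
    calc x * x = x * (h * x) := by rw [h7]
    _ = (x * h) * x := by rw [mul_assoc]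
    _ = -(x * x) := by rw [h8, neg_mul]
  have h10 : (2 : ℂ) • (x * x) = 0 := by
    rw [two_smul]
    nth_rewrite 1 [h9]
    rw [neg_add_cancel]
  exact (smul_eq_zero.1 h10).resolve_left two_ne_zero

include hw hn in
/-- operators with small double products are of rank one -/
theorem rank_one_of {x : Module.End ℂ N} (hsp : IsSp w x) (hx0 : x ≠ 0)
    (h : ∀ b, ∃ r : ℂ, x * EE w b b * x = r • x) : ∃ (c : ℂ) (a : N), c ≠ 0 ∧ a ≠ 0 ∧
      x = c • EE w a a := by
  obtain ⟨b, hb⟩ : ∃ b, x b ≠ 0 := by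
    by_contra hcon
    push Not at hcon
    exact hx0 (LinearMap.ext hcon)
  obtain ⟨r, hr⟩ := h b
  have h1 : x * EE w b b * x = -EE w (x b) (x b) := by
    ext y
    rw [Module.End.mul_apply, Module.End.mul_apply, EE_self, map_smul, LinearMap.neg_apply,
      EE_self, hsp]
    rw [← neg_smul]
    congr 1
    ring
  rw [h1] at hr
  have hr0 : r ≠ 0 := by
    intro h0
    rw [h0, zero_smul, neg_eq_zero] at hr
    exact hb (EE_eq_zero hw hn hb hr)
  refine ⟨-r⁻¹, x b, neg_ne_zero.mpr (inv_ne_zero hr0), hb, ?_⟩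
  rw [neg_smul, ← smul_neg, hr, smul_smul, inv_mul_cancel₀ hr0, one_smul]

include hn in
/-- a functional vanishing on the kernel of another one -/
theorem exists_sep {a1 a2 : N} (h2 : a2 ≠ 0) (h : ∀ t : ℂ, a1 ≠ t • a2) :
    ∃ y, w a2 y = 0 ∧ w a1 y ≠ 0 := by
  by_contra hcon
  push Not at hcon
  obtain ⟨y0, hy0⟩ := exists_pair hn h2
  apply h (w a1 y0)
  rw [← sub_eq_zero]
  refine hn _ fun y => ?_
  have h3 := hcon (y - w a2 y • y0) (by
    rw [map_sub, map_smul, hy0, smul_eq_mul, mul_one, sub_self])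
  rw [map_sub, map_smul, smul_eq_mul] at h3
  rw [map_sub, map_smul, LinearMap.sub_apply, LinearMap.smul_apply, smul_eq_mul]
  linear_combination h3

include hn in
/-- sums of operators of rank one which are of rank one -/
theorem prop_of_sum {c1 c2 c3 : ℂ} {a1 a2 a3 : N} (hc1 : c1 ≠ 0) (hc2 : c2 ≠ 0) (h1 : a1 ≠ 0)
    (h2 : a2 ≠ 0) (h : c1 • EE w a1 a1 + c2 • EE w a2 a2 = c3 • EE w a3 a3) :
    ∃ s : ℂ, c2 • EE w a2 a2 = s • c1 • EE w a1 a1 := by
  have key : ∀ t : ℂ, a2 = t • a1 → ∃ s : ℂ, c2 • EE w a2 a2 = s • c1 • EE w a1 a1 := by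
    rintro t rfl
    refine ⟨c1⁻¹ * c2 * t * t, ?_⟩
    rw [EE_smul_left, EE_smul_right, smul_smul, smul_smul, smul_smul]
    congr 1
    field_simp
  by_contra hcon
  have hA : ∀ t : ℂ, a2 ≠ t • a1 := fun t ht => hcon (key t ht)
  have hB : ∀ t : ℂ, a1 ≠ t • a2 := by
    intro t ht
    have ht0 : t ≠ 0 := by
      rintro rfl
      rw [zero_smul] at ht
      exact h1 ht
    exact hA t⁻¹ (by rw [ht, smul_smul, inv_mul_cancel₀ ht0, one_smul])
  obtain ⟨y1, hy1, hy1'⟩ := exists_sep hn h2 hB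
  obtain ⟨y2, hy2, hy2'⟩ := exists_sep hn h1 hA
  have e1 := LinearMap.congr_fun h y1
  have e2 := LinearMap.congr_fun h y2
  simp only [LinearMap.add_apply, LinearMap.smul_apply, EE_self, hy1, hy2, mul_zero, zero_smul,
    smul_zero, add_zero, zero_add, smul_smul] at e1 e2
  -- a1 and a2 are multiples of a3
  have f1 : a1 = ((c1 * (2 * w a1 y1))⁻¹ * (c3 * (2 * w a3 y1))) • a3 := by
    rw [← smul_smul, ← e1, smul_smul, inv_mul_cancel₀ (by
      refine mul_ne_zero hc1 (mul_ne_zero two_ne_zero hy1')), one_smul]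
  have f2 : a2 = ((c2 * (2 * w a2 y2))⁻¹ * (c3 * (2 * w a3 y2))) • a3 := by
    rw [← smul_smul, ← e2, smul_smul, inv_mul_cancel₀ (by
      refine mul_ne_zero hc2 (mul_ne_zero two_ne_zero hy2')), one_smul]
  generalize ((c1 * (2 * w a1 y1))⁻¹ * (c3 * (2 * w a3 y1))) = r1 at f1
  generalize ((c2 * (2 * w a2 y2))⁻¹ * (c3 * (2 * w a3 y2))) = r2 at f2
  have hr1 : r1 ≠ 0 := by
    rintro rfl
    rw [zero_smul] at f1
    exact h1 f1
  apply hA (r2 * r1⁻¹)
  conv_lhs => rw [f2]
  rw [f1, smul_smul, mul_assoc, inv_mul_cancel₀ hr1, mul_one]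

include hw hn in
/-- an eigenvector for the eigenvalue one -/
theorem exists_fixed [Nontrivial N] {h : Module.End ℂ N} (hsp : IsSp w h) (hh : h * h = 1) :
    ∃ a, a ≠ 0 ∧ h a = a := by
  by_contra hcon
  push Not at hcon
  have h1 : ∀ x, h x = -x := by
    intro x
    have h2 : h (x + h x) = x + h x := by
      rw [map_add, ← Module.End.mul_apply, hh, Module.End.one_apply, add_comm]
    by_contra h3
    exact hcon (x + h x) (fun h4 => h3 (eq_neg_of_add_eq_zero_right h4)) h2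
  obtain ⟨x, hx⟩ := exists_ne (0 : N)
  apply hx
  refine hn _ fun y => ?_
  have h2 := hsp x y
  rw [h1, h1, map_neg, map_neg, LinearMap.neg_apply, neg_neg] at h2
  have h3 : (2 : ℂ) * w x y = 0 := by linear_combination -h2
  exact (mul_eq_zero.1 h3).resolve_left two_ne_zero

include hw hn in
theorem EE_self_ne {a : N} (ha : a ≠ 0) : EE w a a ≠ 0 := fun h => ha (EE_eq_zero hw hn ha h)

end alg

end Pool.Agent.Q2.UW
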