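import Mathlib
import Pool.Agent.Q180.WT.Expw
import Pool.Agent.Q180.UW.StmL
import Pool.Agent.Q2.UW.KilA

set_option autoImplicit false

namespace Pool.Agent.Q2.UW

open Matrix Module Pool.Agent.H204R3.CM Pool.Agent.H204R3.SP Pool.Agent.H204R3.GP
  Pool.Agent.H194R3.CM Pool.Agent.W437.HC
  Pool.Agent.W437.HD Pool.Agent.W437.HQ Pool.Agent.W548.Odd Pool.Agent.TH125 Pool.Agent.Y4
  Pool.Agent.Y4.G Pool.Agent.Y4.K

open Pool.Agent.W437.HP (EE EE_apply EE_self IsSp)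
open Pool.Agent.Y4.H (LZ Ct D_mem_LZ)
open Pool.Agent.Q180.WT (Fr S_memtr pair_of rad_of exists_fr)

variable {g : ℕ} {Z : Matrix (Fin g) (Fin g) ℂ}

/-- the matrix commutes with the commutant -/
def Cm (Z : Matrix (Fin g) (Fin g) ℂ) (A : Matrix (Fin g ⊕ Fin g) (Fin g ⊕ Fin g) ℂ) : Prop :=
  ∀ c, Ct Z c → A * c = c * A

theorem Cm.of_mem {A : Matrix (Fin g ⊕ Fin g) (Fin g ⊕ Fin g) ℂ} (h : A ∈ LZ Z) : Cm Z A :=
  fun c hc => (hc A h).symm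

theorem Cm.mul {A B : Matrix (Fin g ⊕ Fin g) (Fin g ⊕ Fin g) ℂ} (hA : Cm Z A) (hB : Cm Z B) :
    Cm Z (A * B) := fun c hc => by rw [mul_assoc, hB c hc, ← mul_assoc, hA c hc, mul_assoc]

theorem Cm.sub {A B : Matrix (Fin g ⊕ Fin g) (Fin g ⊕ Fin g) ℂ} (hA : Cm Z A) (hB : Cm Z B) :
    Cm Z (A - B) := fun c hc => by rw [sub_mul, mul_sub, hA c hc, hB c hc]

theorem Cm.add {A B : Matrix (Fin g ⊕ Fin g) (Fin g ⊕ Fin g) ℂ} (hA : Cm Z A) (hB : Cm Z B) :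
    Cm Z (A + B) := fun c hc => by rw [add_mul, mul_add, hA c hc, hB c hc]

theorem Cm.smul {A : Matrix (Fin g ⊕ Fin g) (Fin g ⊕ Fin g) ℂ} (r : ℂ) (hA : Cm Z A) :
    Cm Z (r • A) := fun c hc => by rw [smul_mul_assoc, mul_smul_comm, hA c hc]

theorem Cm.neg {A : Matrix (Fin g ⊕ Fin g) (Fin g ⊕ Fin g) ℂ} (hA : Cm Z A) :
    Cm Z (-A) := fun c hc => by rw [neg_mul, mul_neg, hA c hc]

theorem Cm.sum {ι : Type} (s : Finset ι) {A : ι → Matrix (Fin g ⊕ Fin g) (Fin g ⊕ Fin g) ℂ}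
    (hA : ∀ i ∈ s, Cm Z (A i)) : Cm Z (∑ i ∈ s, A i) := fun c hc => by
  rw [Finset.sum_mul, Finset.mul_sum]
  exact Finset.sum_congr rfl fun i hi => hA i hi c hc

variable {M : Pol Z} (F : Fr M)

/-- the vector `x` is in the place `p` -/
def In (p : F.P) (x : Fin g ⊕ Fin g → ℂ) : Prop := (F.ρ p).e *ᵥ x = x

/-- the element of the Lie algebra given by two vectors -/
def IsX (u v : Fin g ⊕ Fin g → ℂ) (X : Matrix (Fin g ⊕ Fin g) (Fin g ⊕ Fin g) ℂ) : Prop :=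
  X ∈ LZ Z ∧ ∀ q z, In F q z → X *ᵥ z = ww F.O v z • u + ww F.O u z • v

theorem om_ne {p q : F.P} {x y : Fin g ⊕ Fin g → ℂ} (hx : In F p x) (hy : In F q y)
    (h : q ≠ F.b p) : ww F.O x y = 0 := by
  by_contra hcon
  exact h (pair_of M F.Rp F.Dt p q x y hx hy hcon)

theorem om_same (hb : ∀ p, F.b p ≠ p) {p : F.P} {x y : Fin g ⊕ Fin g → ℂ} (hx : In F p x)
    (hy : In F p y) : ww F.O x y = 0 := om_ne F hx hy (Ne.symm (hb p))

theorem om_rad {p : F.P} {x : Fin g ⊕ Fin g → ℂ} (hx : In F p x)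
    (h : ∀ y, In F (F.b p) y → ww F.O x y = 0) : x = 0 :=
  rad_of M F.Rp F.Dt p x hx h

theorem om_skew {A : Matrix (Fin g ⊕ Fin g) (Fin g ⊕ Fin g) ℂ} (hc : Cm Z A)
    (hs : Aᵀ * Om g ℂ + Om g ℂ * A = 0) (x y : Fin g ⊕ Fin g → ℂ) :
    ww F.O (A *ᵥ x) y = -ww F.O x (A *ᵥ y) := by
  have h1 : Aᵀ * F.O = -(F.O * A) := by
    unfold Fr.O
    rw [mul_assoc (Om g ℂ), ← hc _ (M.Ct_U F.Dt), ← mul_assoc, ← mul_assoc,
      eq_neg_of_add_eq_zero_left hs, neg_mul]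
  unfold ww
  rw [← vecMul_transpose, ← dotProduct_mulVec, mulVec_mulVec, h1, neg_mulVec, dotProduct_neg,
    ← mulVec_mulVec]

theorem In.map {A : Matrix (Fin g ⊕ Fin g) (Fin g ⊕ Fin g) ℂ} (hc : Cm Z A) {p : F.P}
    {x : Fin g ⊕ Fin g → ℂ} (hx : In F p x) : In F p (A *ᵥ x) := by
  unfold In at hx ⊢
  rw [mulVec_mulVec, ← hc _ (F.ρ p).mem, ← mulVec_mulVec, hx]

theorem ext_basic {A B : Matrix (Fin g ⊕ Fin g) (Fin g ⊕ Fin g) ℂ} (hA : Cm Z A) (hB : Cm Z B)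
    (h : ∀ q z, In F q z → A *ᵥ z = B *ᵥ z) : A = B := by
  have h1 : ∀ v, A *ᵥ v = B *ᵥ v := by
    intro v
    rw [F.total v, mulVec_sum, mulVec_sum]
    refine Finset.sum_congr rfl fun a _ => ?_
    rw [mulVec_sum, mulVec_sum]
    refine Finset.sum_congr rfl fun z _ => ?_
    have e1 : A *ᵥ (F.α a *ᵥ F.ev z) = B *ᵥ (F.α a *ᵥ F.ev z) := by
      rw [mulVec_mulVec, mulVec_mulVec, hA _ (F.hαβ a).ca, hB _ (F.hαβ a).ca, ← mulVec_mulVec,
        ← mulVec_mulVec, h (F.cls z) (F.ev z) (F.hev z)]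
    rw [mulVec_smul, mulVec_smul, e1]
  ext i j
  have h2 := congrFun (h1 (Pi.single j 1)) i
  rwa [mulVec_single_one, mulVec_single_one] at h2

/-- existence of the elements given by two vectors -/
theorem exists_X (hcop : M.Cop) (hsep : M.Sep) (hmem : S_memtr) (p : F.P)
    {u v : Fin g ⊕ Fin g → ℂ} (hu : In F p u) (hv : In F (F.b p) v) (h0 : ww F.O u v = 0) :
    ∃ X, IsX F u v X := by
  have hne : ∀ {q q' : F.P} {x : Fin g ⊕ Fin g → ℂ}, In F q x → q' ≠ q →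
      (F.ρ q').e *ᵥ x = 0 := by
    intro q q' x hx hq
    rw [← hx, mulVec_mulVec, F.Rp.orth _ _ hq, zero_mulVec]
  obtain ⟨S, hSd⟩ : ∃ S, S = SS F.O u v := ⟨_, rfl⟩
  have hSc : ∀ q, (F.ρ q).e * S = S * (F.ρ q).e := by
    intro q
    have e1 : S * (F.ρ q).e = ((vecMulVec u v + vecMulVec v u) * (F.ρ (F.b q)).eᵀ) * F.O := by
      rw [hSd]
      unfold SS
      rw [mul_assoc, F.Oρ, ← mul_assoc]
    have e2 : (F.ρ q).e * S = ((F.ρ q).e * (vecMulVec u v + vecMulVec v u)) * F.O := by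
      rw [hSd]
      unfold SS
      rw [← mul_assoc]
    rw [e1, e2]
    congr 1
    rw [mul_add, add_mul, mul_vecMulVec, mul_vecMulVec, vecMulVec_mul, vecMulVec_mul,
      vecMul_transpose, vecMul_transpose]
    by_cases h1 : q = p
    · subst h1
      have e3 : (F.ρ (F.b q)).e *ᵥ v = v := hv
      have e4 : (F.ρ q).e *ᵥ u = u := hu
      rw [e3, e4]
      congr 1
      by_cases h2 : F.b q = q
      · have e5 : (F.ρ (F.b q)).e *ᵥ u = u := by rw [h2]; exact hu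
        have e6 : (F.ρ q).e *ᵥ v = v := by
          have h3 := hv
          rw [h2] at h3
          exact h3
        rw [e5, e6]
      · rw [hne hu h2, hne hv (Ne.symm h2), vecMulVec_zero, zero_vecMulVec]
    · have h2 : F.b q ≠ F.b p := fun h => h1 (by rw [← F.Dt.bb q, h, F.Dt.bb])
      rw [hne hu h1, hne hv h2, zero_vecMulVec, vecMulVec_zero, zero_add, zero_add]
      by_cases h3 : q = F.b p
      · have e5 : (F.ρ (F.b q)).e *ᵥ u = u := by rw [h3, F.Dt.bb]; exact hu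
        have e6 : (F.ρ q).e *ᵥ v = v := by rw [h3]; exact hv
        rw [e5, e6]
      · have h4 : F.b q ≠ p := fun h => h3 (by rw [← h, F.Dt.bb])
        rw [hne hu h4, hne hv h3, vecMulVec_zero, zero_vecMulVec]
  have hSsp : Sᵀ * (Om g ℂ * ∑ p, F.u p) + (Om g ℂ * ∑ p, F.u p) * S = 0 := by
    rw [hSd]
    exact SS_spOm F.OT _ _
  obtain ⟨X, hX1, hX2, hX3⟩ := M.morita F.Rp F.Dt hSc hSsp
  have hact : ∀ q z, In F q z → X *ᵥ z = ww F.O v z • u + ww F.O u z • v := by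
    intro q z hz
    have h1 : X *ᵥ z = S *ᵥ z := by
      unfold In at hz
      rw [← hz, mulVec_mulVec, mulVec_mulVec, hX3]
    rw [h1, hSd, SS_mulVec]
    rfl
  have htr : ∀ q, trace (X * (F.ρ q).e) = 0 := by
    intro q
    have h00 : ww F.O v u = 0 := by rw [ww_anti F.OT, h0, neg_zero]
    have k1 : v ⬝ᵥ (F.O *ᵥ ((F.ρ q).e *ᵥ u)) = 0 := by
      by_cases h1 : q = p
      · have e4 : (F.ρ q).e *ᵥ u = u := by rw [h1]; exact hu
        rw [e4]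
        exact h00
      · rw [hne hu h1, mulVec_zero, dotProduct_zero]
    have k2 : u ⬝ᵥ (F.O *ᵥ ((F.ρ q).e *ᵥ v)) = 0 := by
      by_cases h1 : q = F.b p
      · have e4 : (F.ρ q).e *ᵥ v = v := by rw [h1]; exact hv
        rw [e4]
        exact h0
      · rw [hne hv h1, mulVec_zero, dotProduct_zero]
    rw [hX3, ← hSc, hSd]
    unfold SS
    rw [← mul_assoc, mul_add, mul_vecMulVec, mul_vecMulVec, add_mul, vecMulVec_mul,
      vecMulVec_mul, trace_add, trace_vecMulVec, trace_vecMulVec, dotProduct_comm,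
      ← dotProduct_mulVec, k1, dotProduct_comm, ← dotProduct_mulVec, k2, add_zero]
  refine ⟨X, hmem g Z M hcop hsep X hX1 hX2 fun φ => ?_, hact⟩
  obtain ⟨q, hq⟩ := F.Rp.surj φ
  rw [← hq.trace fun c hc => (hX1 c hc).symm]
  exact htr q

/-- the data of the proof -/
structure KD {N : Type} [AddCommGroup N] [Module ℂ N] (Z : Matrix (Fin g) (Fin g) ℂ)
    (w : N →ₗ[ℂ] N →ₗ[ℂ] ℂ)
    (R : Submodule ℂ (Matrix (Fin g ⊕ Fin g) (Fin g ⊕ Fin g) ℂ))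
    (θ : Matrix (Fin g ⊕ Fin g) (Fin g ⊕ Fin g) ℂ →ₗ[ℂ] Module.End ℂ N) : Prop where
  alt : ∀ x, w x x = 0
  nd : ∀ x, (∀ y, w x y = 0) → x = 0
  le : LZ Z ≤ R
  cm : ∀ A ∈ R, Cm Z A
  sym : ∀ A ∈ R, Aᵀ * Om g ℂ + Om g ℂ * A = 0
  br : ∀ A ∈ R, ∀ B ∈ R, A * B - B * A ∈ R ∧ θ (A * B - B * A) = θ A * θ B - θ B * θ A
  sp : ∀ A ∈ R, IsSp w (θ A)
  full : ∀ x y, ∃ A ∈ R, θ A = EE w x y
  sq : θ (DZ Z) * θ (DZ Z) = 1

variable {N : Type} [AddCommGroup N] [Module ℂ N] {w : N →ₗ[ℂ] N →ₗ[ℂ] ℂ}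
  {R : Submodule ℂ (Matrix (Fin g ⊕ Fin g) (Fin g ⊕ Fin g) ℂ)}
  {θ : Matrix (Fin g ⊕ Fin g) (Fin g ⊕ Fin g) ℂ →ₗ[ℂ] Module.End ℂ N} (K : KD Z w R θ)

theorem KD.skew (K : KD Z w R θ) {A : Matrix (Fin g ⊕ Fin g) (Fin g ⊕ Fin g) ℂ} (hA : A ∈ R)
    (x y : Fin g ⊕ Fin g → ℂ) : ww F.O (A *ᵥ x) y = -ww F.O x (A *ᵥ y) :=
  om_skew F (K.cm A hA) (K.sym A hA) x y

/-- the positive part of a place -/
def InP (p : F.P) (x : Fin g ⊕ Fin g → ℂ) : Prop := In F p x ∧ DZ Z *ᵥ x = x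

/-- the negative part of a place -/
def InN (p : F.P) (x : Fin g ⊕ Fin g → ℂ) : Prop := In F p x ∧ DZ Z *ᵥ x = -x

theorem KD.D_skew (K : KD Z w R θ) (x y : Fin g ⊕ Fin g → ℂ) :
    ww F.O (DZ Z *ᵥ x) y = -ww F.O x (DZ Z *ᵥ y) := K.skew F (K.le D_mem_LZ) x y

theorem ww_neg_right (O : Matrix (Fin g ⊕ Fin g) (Fin g ⊕ Fin g) ℂ) (x y : Fin g ⊕ Fin g → ℂ) :
    ww O x (-y) = -ww O x y := by
  unfold ww
  rw [mulVec_neg, dotProduct_neg]

theorem ww_neg_left (O : Matrix (Fin g ⊕ Fin g) (Fin g ⊕ Fin g) ℂ) (x y : Fin g ⊕ Fin g → ℂ) :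
    ww O (-x) y = -ww O x y := by
  unfold ww
  rw [neg_dotProduct]

theorem KD.pp (K : KD Z w R θ) {p q : F.P} {x y : Fin g ⊕ Fin g → ℂ} (hx : InP F p x)
    (hy : InP F q y) : ww F.O x y = 0 := by
  have h1 := K.D_skew F x y
  rw [hx.2, hy.2] at h1
  have h2 : (2 : ℂ) * ww F.O x y = 0 := by linear_combination h1
  exact (mul_eq_zero.1 h2).resolve_left two_ne_zero

theorem KD.nn (K : KD Z w R θ) {p q : F.P} {x y : Fin g ⊕ Fin g → ℂ} (hx : InN F p x)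
    (hy : InN F q y) : ww F.O x y = 0 := by
  have h1 := K.D_skew F x y
  rw [hx.2, hy.2, ww_neg_left, ww_neg_right] at h1
  have h2 : (2 : ℂ) * ww F.O x y = 0 := by linear_combination -h1
  exact (mul_eq_zero.1 h2).resolve_left two_ne_zero

/-- pairing with the negative part -/
theorem KD.exists_neg (K : KD Z w R θ) {p : F.P} {x : Fin g ⊕ Fin g → ℂ} (hx : InP F p x)
    (h0 : x ≠ 0) : ∃ y, InN F (F.b p) y ∧ ww F.O x y ≠ 0 := by
  by_contra hcon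
  push Not at hcon
  apply h0
  refine om_rad F hx.1 fun y hy => ?_
  have hDc : Cm Z (DZ Z) := Cm.of_mem D_mem_LZ
  have h1 : InN F (F.b p) (y - DZ Z *ᵥ y) := by
    constructor
    · have h2 := hy.map F hDc
      unfold In at h2 hy ⊢
      rw [mulVec_sub, h2, hy]
    · rw [mulVec_sub, mulVec_mulVec, M.D_sq, one_mulVec, neg_sub]
  have h2 := hcon _ h1
  have h3 : ww F.O x (y - DZ Z *ᵥ y) = ww F.O x y + ww F.O (DZ Z *ᵥ x) y := by
    rw [K.D_skew F, sub_eq_add_neg, ww_add_right, ww_neg_right]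
  rw [h3, hx.2] at h2
  have h4 : (2 : ℂ) * ww F.O x y = 0 := by linear_combination h2
  exact (mul_eq_zero.1 h4).resolve_left two_ne_zero

theorem IsX.symm' {u v : Fin g ⊕ Fin g → ℂ} {X : Matrix (Fin g ⊕ Fin g) (Fin g ⊕ Fin g) ℂ}
    (h : IsX F u v X) : IsX F v u X := ⟨h.1, fun q z hz => by rw [h.2 q z hz, add_comm]⟩

theorem IsX.uniq {u v : Fin g ⊕ Fin g → ℂ} {X Y : Matrix (Fin g ⊕ Fin g) (Fin g ⊕ Fin g) ℂ}
    (h : IsX F u v X) (h' : IsX F u v Y) : X = Y :=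
  ext_basic F (Cm.of_mem h.1) (Cm.of_mem h'.1) fun q z hz => by rw [h.2 q z hz, h'.2 q z hz]

theorem IsX.comb {u u' v : Fin g ⊕ Fin g → ℂ} {X Y : Matrix (Fin g ⊕ Fin g) (Fin g ⊕ Fin g) ℂ}
    (h : IsX F u v X) (h' : IsX F u' v Y) (s t : ℂ) :
    IsX F (s • u + t • u') v (s • X + t • Y) := by
  refine ⟨(LZ Z).add_mem ((LZ Z).smul_mem s h.1) ((LZ Z).smul_mem t h'.1), fun q z hz => ?_⟩
  rw [add_mulVec, smul_mulVec, smul_mulVec, h.2 q z hz, h'.2 q z hz, ww_add_left, ww_smul_left,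
    ww_smul_left]
  module

/-- the element raises -/
theorem KD.DX (K : KD Z w R θ) {p : F.P} {u v : Fin g ⊕ Fin g → ℂ} (hu : InP F p u)
    (hv : InP F (F.b p) v) {X : Matrix (Fin g ⊕ Fin g) (Fin g ⊕ Fin g) ℂ} (h : IsX F u v X) :
    DZ Z * X = X ∧ X * DZ Z = -X := by
  have hDc : Cm Z (DZ Z) := Cm.of_mem D_mem_LZ
  have hX : Cm Z X := Cm.of_mem h.1
  constructor
  · refine ext_basic F (hDc.mul hX) hX fun q z hz => ?_
    rw [← mulVec_mulVec, h.2 q z hz, mulVec_add, mulVec_smul, mulVec_smul, hu.2, hv.2]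
  · refine ext_basic F (hX.mul hDc) hX.neg fun q z hz => ?_
    have e1 : ww F.O v (DZ Z *ᵥ z) = -ww F.O v z := by
      have := K.D_skew F v z
      rw [hv.2] at this
      linear_combination this
    have e2 : ww F.O u (DZ Z *ᵥ z) = -ww F.O u z := by
      have := K.D_skew F u z
      rw [hu.2] at this
      linear_combination this
    rw [← mulVec_mulVec, h.2 q _ (hz.map F hDc), neg_mulVec, h.2 q z hz, e1, e2]
    module

/-- the double product -/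
theorem KD.XYX (K : KD Z w R θ) (hb : ∀ p, F.b p ≠ p) {p : F.P} {u v : Fin g ⊕ Fin g → ℂ}
    (hu : InP F p u) (hv : InP F (F.b p) v)
    {X Y : Matrix (Fin g ⊕ Fin g) (Fin g ⊕ Fin g) ℂ} (h : IsX F u v X) (hY : Y ∈ R) :
    X * Y * X = ww F.O v (Y *ᵥ u) • X := by
  have hX : Cm Z X := Cm.of_mem h.1
  have hYc := K.cm Y hY
  refine ext_basic F ((hX.mul hYc).mul hX) (hX.smul _) fun q z hz => ?_
  have e1 : ww F.O u (Y *ᵥ u) = 0 := om_same F hb hu.1 (hu.1.map F hYc)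
  have e2 : ww F.O v (Y *ᵥ v) = 0 := om_same F hb hv.1 (hv.1.map F hYc)
  have e3 : ww F.O u (Y *ᵥ v) = ww F.O v (Y *ᵥ u) := by
    have h1 := K.skew F hY u v
    rw [ww_anti F.OT] at h1
    linear_combination h1
  rw [← mulVec_mulVec, h.2 q z hz, mulVec_add, mulVec_smul, mulVec_smul, ← mulVec_mulVec,
    ← mulVec_mulVec, h.2 p _ (hu.1.map F hYc), h.2 (F.b p) _ (hv.1.map F hYc), e1, e2, e3,
    smul_mulVec, h.2 q z hz]
  module

theorem KD.XX (K : KD Z w R θ) {p : F.P} {u v : Fin g ⊕ Fin g → ℂ}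
    (hu : InP F p u) (hv : InP F (F.b p) v)
    {X : Matrix (Fin g ⊕ Fin g) (Fin g ⊕ Fin g) ℂ} (h : IsX F u v X) : X * X = 0 := by
  obtain ⟨h1, h2⟩ := K.DX F hu hv h
  have h3 : X * X = -(X * X) := by
    calc X * X = X * (DZ Z * X) := by rw [h1]
    _ = (X * DZ Z) * X := by rw [mul_assoc]
    _ = -(X * X) := by rw [h2, neg_mul]
  have h10 : (2 : ℂ) • (X * X) = 0 := by
    rw [two_smul]
    nth_rewrite 1 [h3]
    rw [neg_add_cancel]
  exact (smul_eq_zero.1 h10).resolve_left two_ne_zero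

/-- the image of the element is of rank one -/
theorem KD.rk (K : KD Z w R θ) (hb : ∀ p, F.b p ≠ p) {p : F.P} {u v : Fin g ⊕ Fin g → ℂ}
    (hu : InP F p u) (hv : InP F (F.b p) v)
    {X : Matrix (Fin g ⊕ Fin g) (Fin g ⊕ Fin g) ℂ} (h : IsX F u v X) (h0 : θ X ≠ 0) :
    ∃ (c : ℂ) (a : N), c ≠ 0 ∧ a ≠ 0 ∧ θ X = c • EE w a a := by
  have hXR := K.le h.1
  obtain ⟨d1, d2⟩ := K.DX F hu hv h
  have hD := K.le (D_mem_LZ (Z := Z))
  have hxx : θ X * θ X = 0 := by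
    refine sq_zero_of_raise K.sq ?_
    have h1 := (K.br _ hD X hXR).2
    rw [d1, d2, sub_neg_eq_add, ← two_smul ℂ, map_smul] at h1
    exact h1.symm
  refine rank_one_of K.alt K.nd (K.sp X hXR) h0 fun b => ?_
  obtain ⟨Y, hY, hYb⟩ := K.full b b
  refine ⟨ww F.O v (Y *ᵥ u), ?_⟩
  have h1 := K.XYX F hb hu hv h hY
  have h2 := K.XX F hu hv h
  obtain ⟨g1, g2⟩ := K.br X hXR Y hY
  obtain ⟨g3, g4⟩ := K.br X hXR _ g1
  have h3 : X * (X * Y - Y * X) - (X * Y - Y * X) * X = (-2 * ww F.O v (Y *ᵥ u)) • X := by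
    calc X * (X * Y - Y * X) - (X * Y - Y * X) * X =
        (X * X) * Y - (2 : ℂ) • (X * Y * X) + Y * (X * X) := by
          rw [two_smul]
          noncomm_ring
    _ = _ := by
      rw [h2, h1, zero_mul, mul_zero]
      module
  rw [h3, g2, map_smul] at g4
  have h4 : θ X * (θ X * θ Y - θ Y * θ X) - (θ X * θ Y - θ Y * θ X) * θ X =
      (-2 : ℂ) • (θ X * θ Y * θ X) := by
    calc θ X * (θ X * θ Y - θ Y * θ X) - (θ X * θ Y - θ Y * θ X) * θ X =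
        (θ X * θ X) * θ Y - (2 : ℂ) • (θ X * θ Y * θ X) + θ Y * (θ X * θ X) := by
          rw [two_smul]
          noncomm_ring
    _ = _ := by
      rw [hxx, zero_mul, mul_zero]
      module
  rw [h4, hYb, mul_smul] at g4
  exact (smul_right_injective _ (by norm_num : (-2 : ℂ) ≠ 0) g4).symm

theorem InP.comb {p : F.P} {x y : Fin g ⊕ Fin g → ℂ} (hx : InP F p x) (hy : InP F p y) (s t : ℂ) :
    InP F p (s • x + t • y) := by
  obtain ⟨h1, h2⟩ := hx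
  obtain ⟨h3, h4⟩ := hy
  unfold In at h1 h3
  refine ⟨?_, ?_⟩
  · unfold In
    rw [mulVec_add, mulVec_smul, mulVec_smul, h1, h3]
  · rw [mulVec_add, mulVec_smul, mulVec_smul, h2, h4]

theorem IsX.zero_left {v : Fin g ⊕ Fin g → ℂ} {X : Matrix (Fin g ⊕ Fin g) (Fin g ⊕ Fin g) ℂ}
    (h : IsX F 0 v X) : X = 0 := by
  refine ext_basic F (Cm.of_mem h.1) (fun c _ => by rw [zero_mul, mul_zero]) fun q z hz => ?_
  have h1 : ww F.O 0 z = 0 := by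
    unfold ww
    rw [zero_dotProduct]
  rw [h.2 q z hz, h1, smul_zero, zero_smul, add_zero, zero_mulVec]

/-- one element is killed -/
theorem KD.kill_two (K : KD Z w R θ) (hcop : M.Cop) (hsep : M.Sep) (hmem : S_memtr)
    (hb : ∀ p, F.b p ≠ p) {p : F.P} {u1 u2 v : Fin g ⊕ Fin g → ℂ} (h1 : InP F p u1)
    (h2 : InP F p u2) (hv : InP F (F.b p) v) (hu1 : u1 ≠ 0) (hu : ∀ t : ℂ, u2 ≠ t • u1) :
    ∃ u0 X, u0 ≠ 0 ∧ InP F p u0 ∧ IsX F u0 v X ∧ θ X = 0 := by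
  obtain ⟨X1, hX1⟩ := exists_X F hcop hsep hmem p h1.1 hv.1 (K.pp F h1 hv)
  obtain ⟨X2, hX2⟩ := exists_X F hcop hsep hmem p h2.1 hv.1 (K.pp F h2 hv)
  by_cases k1 : θ X1 = 0
  · exact ⟨u1, X1, hu1, h1, hX1, k1⟩
  by_cases k2 : θ X2 = 0
  · exact ⟨u2, X2, fun h => hu 0 (by rw [h, zero_smul]), h2, hX2, k2⟩
  obtain ⟨c1, a1, hc1, ha1, e1⟩ := K.rk F hb h1 hv hX1 k1
  obtain ⟨c2, a2, hc2, ha2, e2⟩ := K.rk F hb h2 hv hX2 k2
  have hX3 := hX1.comb F hX2 1 1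
  have h3 := h1.comb F h2 1 1
  obtain ⟨c3, a3, e3⟩ : ∃ (c3 : ℂ) (a3 : N), θ ((1 : ℂ) • X1 + (1 : ℂ) • X2) = c3 • EE w a3 a3 := by
    by_cases k3 : θ ((1 : ℂ) • X1 + (1 : ℂ) • X2) = 0
    · exact ⟨0, 0, by rw [k3, zero_smul]⟩
    · obtain ⟨c3, a3, -, -, e3⟩ := K.rk F hb h3 hv hX3 k3
      exact ⟨c3, a3, e3⟩
  rw [map_add, one_smul, one_smul, e1, e2] at e3
  obtain ⟨s, hs⟩ := prop_of_sum K.nd hc1 hc2 ha1 ha2 e3
  refine ⟨(-s) • u1 + (1 : ℂ) • u2, (-s) • X1 + (1 : ℂ) • X2, ?_, h1.comb F h2 _ _,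
    hX1.comb F hX2 _ _, ?_⟩
  · intro h
    apply hu s
    rw [one_smul, neg_smul] at h
    exact (neg_add_eq_zero.1 h).symm
  · rw [map_add, map_smul, map_smul, e1, e2, hs]
    module

/-- the ideal property -/
theorem KD.spread (K : KD Z w R θ) (hcop : M.Cop) (hsep : M.Sep) (hmem : S_memtr)
    (hb : ∀ p, F.b p ≠ p) {p : F.P} {u0 v0 : Fin g ⊕ Fin g → ℂ} (hu0 : InP F p u0)
    (hv0 : InP F (F.b p) v0) (hu00 : u0 ≠ 0) (hv00 : v0 ≠ 0)
    {X0 : Matrix (Fin g ⊕ Fin g) (Fin g ⊕ Fin g) ℂ} (hX0 : IsX F u0 v0 X0) (k0 : θ X0 = 0)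
    {u1 : Fin g ⊕ Fin g → ℂ} (hu1 : InP F p u1)
    {X1 : Matrix (Fin g ⊕ Fin g) (Fin g ⊕ Fin g) ℂ} (hX1 : IsX F u1 v0 X1) : θ X1 = 0 := by
  obtain ⟨d, hd, hβ⟩ := K.exists_neg F hu0 hu00
  obtain ⟨c, hc, hα⟩ := K.exists_neg F hv0 hv00
  rw [F.Dt.bb] at hc
  obtain ⟨Y, hY⟩ := exists_X F hcop hsep hmem p hc.1 hd.1 (K.nn F hc hd)
  have r0 := K.le hX0.1
  have r1 := K.le hX1.1
  have rY := K.le hY.1
  obtain ⟨rH, eH⟩ := K.br X0 r0 Y rY
  rw [k0, zero_mul, mul_zero, sub_zero] at eH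
  obtain ⟨H, hH⟩ : ∃ H, H = X0 * Y - Y * X0 := ⟨_, rfl⟩
  rw [← hH] at rH eH
  obtain ⟨rL, eL⟩ := K.br H rH X1 r1
  rw [eH, zero_mul, mul_zero, sub_zero] at eL
  -- the values of the form
  have z1 : ww F.O u0 u0 = 0 := om_same F hb hu0.1 hu0.1
  have z2 : ww F.O v0 v0 = 0 := om_same F hb hv0.1 hv0.1
  have z3 : ww F.O u0 v0 = 0 := K.pp F hu0 hv0
  have z4 : ww F.O v0 u0 = 0 := K.pp F hv0 hu0
  have z5 : ww F.O v0 d = 0 := om_same F hb hv0.1 hd.1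
  have z6 : ww F.O d v0 = 0 := om_same F hb hd.1 hv0.1
  have z7 : ww F.O u0 c = 0 := om_same F hb hu0.1 hc.1
  have z8 : ww F.O c u0 = 0 := om_same F hb hc.1 hu0.1
  have z9 : ww F.O u0 u1 = 0 := om_same F hb hu0.1 hu1.1
  have z10 : ww F.O u1 u0 = 0 := om_same F hb hu1.1 hu0.1
  have z11 : ww F.O v0 u1 = 0 := K.pp F hv0 hu1
  have z12 : ww F.O u1 v0 = 0 := K.pp F hu1 hv0
  have z13 : ww F.O c u1 = 0 := om_same F hb hc.1 hu1.1
  have z14 : ww F.O u1 c = 0 := om_same F hb hu1.1 hc.1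
  obtain ⟨α, hα'⟩ : ∃ α, α = ww F.O v0 c := ⟨_, rfl⟩
  obtain ⟨β, hβ'⟩ : ∃ β, β = ww F.O u0 d := ⟨_, rfl⟩
  obtain ⟨γ, hγ'⟩ : ∃ γ, γ = ww F.O u1 d := ⟨_, rfl⟩
  have y1 : ww F.O c v0 = -α := by rw [hα', ww_anti F.OT]
  have y2 : ww F.O d u0 = -β := by rw [hβ', ww_anti F.OT]
  have y3 : ww F.O d u1 = -γ := by rw [hγ', ww_anti F.OT]
  -- the actions
  have aX0 : ∀ q z, In F q z → X0 *ᵥ z = ww F.O v0 z • u0 + ww F.O u0 z • v0 := hX0.2
  have aY : ∀ q z, In F q z → Y *ᵥ z = ww F.O d z • c + ww F.O c z • d := hY.2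
  have aX1 : ∀ q z, In F q z → X1 *ᵥ z = ww F.O v0 z • u1 + ww F.O u1 z • v0 := hX1.2
  have aH : ∀ q z, In F q z → H *ᵥ z = (ww F.O d z * α) • u0 + (ww F.O c z * β) • v0 +
      (ww F.O v0 z * β) • c + (ww F.O u0 z * α) • d := by
    intro q z hz
    rw [hH, sub_mulVec, ← mulVec_mulVec, ← mulVec_mulVec, aY q z hz, aX0 q z hz, mulVec_add,
      mulVec_add, mulVec_smul, mulVec_smul, mulVec_smul, mulVec_smul, aX0 p c hc.1,
      aX0 (F.b p) d hd.1, aY p u0 hu0.1, aY (F.b p) v0 hv0.1, ← hα', ← hβ', y1, y2, z5, z6, z7, z8]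
    module
  have key : H * X1 - X1 * H = (-(α * γ)) • X0 + (-(α * β)) • X1 := by
    refine ext_basic F ?_ ?_ fun q z hz => ?_
    · exact ((K.cm H rH).mul (K.cm X1 r1)).sub ((K.cm X1 r1).mul (K.cm H rH))
    · exact ((K.cm X0 r0).smul _).add ((K.cm X1 r1).smul _)
    · rw [sub_mulVec, ← mulVec_mulVec, ← mulVec_mulVec, aX1 q z hz, aH q z hz, mulVec_add,
        mulVec_add, mulVec_add, mulVec_add, mulVec_smul, mulVec_smul, mulVec_smul, mulVec_smul,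
        mulVec_smul, mulVec_smul, aH p u1 hu1.1, aH (F.b p) v0 hv0.1, aX1 p u0 hu0.1,
        aX1 (F.b p) v0 hv0.1, aX1 p c hc.1, aX1 (F.b p) d hd.1, ← hα', ← hγ', add_mulVec,
        smul_mulVec, smul_mulVec, aX0 q z hz, aX1 q z hz, y1, y3, z2, z3, z4, z5, z6, z9, z10,
        z11, z12, z13, z14]
      module
  rw [key, map_add, map_smul, map_smul, k0, smul_zero, zero_add] at eL
  refine (smul_eq_zero.1 eL).resolve_left ?_
  rw [hα', hβ']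
  exact neg_ne_zero.mpr (mul_ne_zero hα hβ)

/-- all elements at a place are killed -/
theorem KD.kill_all (K : KD Z w R θ) (hcop : M.Cop) (hsep : M.Sep) (hmem : S_memtr)
    (hb : ∀ p, F.b p ≠ p) {p : F.P} {u0 v0 : Fin g ⊕ Fin g → ℂ} (hu0 : InP F p u0)
    (hv0 : InP F (F.b p) v0) (hu00 : u0 ≠ 0) (hv00 : v0 ≠ 0)
    {X0 : Matrix (Fin g ⊕ Fin g) (Fin g ⊕ Fin g) ℂ} (hX0 : IsX F u0 v0 X0) (k0 : θ X0 = 0)
    {u1 v1 : Fin g ⊕ Fin g → ℂ} (hu1 : InP F p u1) (hv1 : InP F (F.b p) v1)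
    {X1 : Matrix (Fin g ⊕ Fin g) (Fin g ⊕ Fin g) ℂ} (hX1 : IsX F u1 v1 X1) : θ X1 = 0 := by
  by_cases h : u1 = 0
  · subst h
    rw [hX1.zero_left, map_zero]
  obtain ⟨X2, hX2⟩ := exists_X F hcop hsep hmem p hu1.1 hv0.1 (K.pp F hu1 hv0)
  have k2 := K.spread F hcop hsep hmem hb hu0 hv0 hu00 hv00 hX0 k0 hu1 hX2
  have hu1' : InP F (F.b (F.b p)) u1 := by rw [F.Dt.bb]; exact hu1
  exact K.spread F hcop hsep hmem hb hv0 hu1' hv00 h (hX2.symm' F) k2 hv1 (hX1.symm' F)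

theorem mu_one {p : F.P} {u : Fin g ⊕ Fin g → ℂ} (hu : InP F p u) (hu0 : u ≠ 0)
    (h : ∀ u', InP F p u' → ∃ t : ℂ, u' = t • u) : mu (F.ρ p) = 1 := by
  have h1 : LinearMap.range (mulVecLin (Pool.Agent.Y4.K.pr (F.ρ p))) = Submodule.span ℂ {u} := by
    apply le_antisymm
    · rintro _ ⟨x, rfl⟩
      rw [mulVecLin_apply]
      have h2 : InP F p (Pool.Agent.Y4.K.pr (F.ρ p) *ᵥ x) := by
        constructor
        · unfold In
          rw [mulVec_mulVec, e_pr]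
        · rw [mulVec_mulVec]
          congr 1
          unfold Pool.Agent.Y4.K.pr
          rw [mul_smul_comm, ← mul_assoc, mul_add, mul_one, M.D_sq, add_comm]
      obtain ⟨t, ht⟩ := h _ h2
      rw [ht]
      exact Submodule.smul_mem _ _ (Submodule.mem_span_singleton_self u)
    · rw [Submodule.span_singleton_le_iff_mem]
      refine ⟨u, ?_⟩
      rw [mulVecLin_apply]
      unfold Pool.Agent.Y4.K.pr
      have h3 : (F.ρ p).e *ᵥ u = u := hu.1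
      rw [smul_mulVec, ← mulVec_mulVec, h3, add_mulVec, one_mulVec, hu.2, ← two_smul ℂ, smul_smul,
        inv_mul_cancel₀ two_ne_zero, one_smul]
  unfold mu
  rw [h1, finrank_span_singleton hu0]

/-- all elements are killed -/
theorem KD.claim (K : KD Z w R θ) (hcop : M.Cop) (hsep : M.Sep) (hmem : S_memtr)
    (hb : ∀ p, F.b p ≠ p) (hmu : ∀ φ : Pr Z, mu φ + mu (M.bar φ) ≠ 2) {p : F.P}
    {u v : Fin g ⊕ Fin g → ℂ} (hu : InP F p u) (hv : InP F (F.b p) v)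
    {X : Matrix (Fin g ⊕ Fin g) (Fin g ⊕ Fin g) ℂ} (hX : IsX F u v X) : θ X = 0 := by
  by_cases hu0 : u = 0
  · subst hu0
    rw [hX.zero_left, map_zero]
  by_cases hv0 : v = 0
  · subst hv0
    rw [(hX.symm' F).zero_left, map_zero]
  by_cases h1 : ∀ u', InP F p u' → ∃ t : ℂ, u' = t • u
  · by_cases h2 : ∀ v', InP F (F.b p) v' → ∃ t : ℂ, v' = t • v
    · exfalso
      apply hmu (F.ρ p)
      rw [← M.mu_eqv ⟨_, _, F.Dt.iso p⟩, mu_one F hu hu0 h1, mu_one F hv hv0 h2]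
    · push Not at h2
      obtain ⟨v', hv', h3⟩ := h2
      have hu' : InP F (F.b (F.b p)) u := by rw [F.Dt.bb]; exact hu
      obtain ⟨v0, X0, g1, g2, g3, g4⟩ := K.kill_two F hcop hsep hmem hb hv hv' hu' hv0 h3
      exact K.kill_all F hcop hsep hmem hb g2 hu' g1 hu0 g3 g4 hv hu' (hX.symm' F)
  · push Not at h1
    obtain ⟨u', hu', h3⟩ := h1
    obtain ⟨u0, X0, g1, g2, g3, g4⟩ := K.kill_two F hcop hsep hmem hb hu hu' hv hu0 h3
    exact K.kill_all F hcop hsep hmem hb g2 hv g1 hv0 g3 g4 hu hv hX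

theorem ww_sum_left {ι : Type} (s : Finset ι) (O : Matrix (Fin g ⊕ Fin g) (Fin g ⊕ Fin g) ℂ)
    (f : ι → Fin g ⊕ Fin g → ℂ) (y : Fin g ⊕ Fin g → ℂ) :
    ww O (∑ i ∈ s, f i) y = ∑ i ∈ s, ww O (f i) y := by
  unfold ww
  rw [sum_dotProduct]

/-- the contradiction -/
theorem KD.false [Nontrivial N] (K : KD Z w R θ) (hcop : M.Cop) (hsep : M.Sep) (hmem : S_memtr)
    (hb : ∀ p, F.b p ≠ p) (hmu : ∀ φ : Pr Z, mu φ + mu (M.bar φ) ≠ 2) : False := by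
  classical
  have hD := K.le (D_mem_LZ (Z := Z))
  obtain ⟨a, ha0, ha⟩ := exists_fixed K.alt K.nd (K.sp _ hD) K.sq
  obtain ⟨Y, hY, hYa⟩ := K.full a a
  obtain ⟨r1, e1⟩ := K.br _ hD _ hY
  obtain ⟨r2, e2⟩ := K.br _ hD _ r1
  have hbr : θ (DZ Z) * EE w a a - EE w a a * θ (DZ Z) = (2 : ℂ) • EE w a a := by
    rw [Pool.Agent.W437.HP.EE_bracket (K.sp _ hD), ha, two_smul]
  rw [hYa, hbr] at e1
  rw [e1, mul_smul_comm, smul_mul_assoc, ← smul_sub, hbr] at e2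
  obtain ⟨Wm, hW⟩ : ∃ Wm, Wm = (DZ Z * (DZ Z * Y - Y * DZ Z) - (DZ Z * Y - Y * DZ Z) * DZ Z) +
    (2 : ℂ) • (DZ Z * Y - Y * DZ Z) := ⟨_, rfl⟩
  have hWR : Wm ∈ R := by
    rw [hW]
    exact R.add_mem r2 (R.smul_mem _ r1)
  have hθW : θ Wm ≠ 0 := by
    rw [hW, map_add, map_smul, e2, e1]
    intro h
    have h1 : (8 : ℂ) • EE w a a = 0 := by
      rw [← h]
      module
    exact EE_self_ne K.alt K.nd ha0 ((smul_eq_zero.1 h1).resolve_left (by norm_num))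
  have hDD := M.D_sq
  have hW2 : Wm = (2 : ℂ) • ((1 + DZ Z) * Y * (1 - DZ Z)) := by
    rw [hW]
    have h1 : DZ Z * (DZ Z * Y - Y * DZ Z) - (DZ Z * Y - Y * DZ Z) * DZ Z =
        (DZ Z * DZ Z) * Y + Y * (DZ Z * DZ Z) - (2 : ℂ) • (DZ Z * Y * DZ Z) := by
      rw [two_smul]
      noncomm_ring
    have h2 : (1 + DZ Z) * Y * (1 - DZ Z) = Y - Y * DZ Z + DZ Z * Y - DZ Z * Y * DZ Z := by
      noncomm_ring
    rw [h1, h2, hDD, one_mul, mul_one]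
    module
  have hDW : DZ Z * Wm = Wm := by
    rw [hW2, mul_smul_comm, ← mul_assoc, ← mul_assoc, mul_add, mul_one, hDD, add_comm (DZ Z)]
  have hWD : Wm * DZ Z = -Wm := by
    rw [hW2, smul_mul_assoc, mul_assoc, sub_mul, one_mul, hDD, ← smul_neg, ← mul_neg, neg_sub]
  have hDc : Cm Z (DZ Z) := Cm.of_mem D_mem_LZ
  have hWc := K.cm _ hWR
  -- the vectors
  obtain ⟨av, hav⟩ : ∃ av : F.R → Fin g ⊕ Fin g → ℂ, ∀ x, av x =
    (2 : ℂ)⁻¹ • (F.ev (F.inv x) + DZ Z *ᵥ F.ev (F.inv x)) := ⟨_, fun _ => rfl⟩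
  have hevIn : ∀ x, In F (F.cls x) (F.ev x) := fun x => F.hev x
  have havP : ∀ x, InP F (F.b (F.cls x)) (av x) := by
    intro x
    have h1 := hevIn (F.inv x)
    rw [F.hci] at h1
    have h2 := h1.map F hDc
    unfold In at h1 h2
    constructor
    · unfold In
      rw [hav, mulVec_smul, mulVec_add, h1, h2]
    · rw [hav, mulVec_smul, mulVec_add, mulVec_mulVec, hDD, one_mulVec, add_comm]
  have hbvP : ∀ x, InP F (F.cls x) (Wm *ᵥ F.ev x) := fun x =>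
    ⟨(hevIn x).map F hWc, by rw [mulVec_mulVec, hDW]⟩
  have hbvP' : ∀ x, InP F (F.b (F.b (F.cls x))) (Wm *ᵥ F.ev x) := fun x => by
    rw [F.Dt.bb]
    exact hbvP x
  choose X hX using fun x => exists_X F hcop hsep hmem (F.b (F.cls x)) (havP x).1 (hbvP' x).1
    (K.pp F (havP x) (hbvP' x))
  have hθX : ∀ x, θ (X x) = 0 := fun x =>
    K.claim F hcop hsep hmem hb hmu (havP x) (hbvP' x) (hX x)
  -- first formula
  have f1 : ∀ q z, In F q z → Wm *ᵥ z = ∑ x, ((F.jj (F.inv x))⁻¹ * ww F.O (av x) z) •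
      (Wm *ᵥ F.ev x) := by
    intro q z hz
    have h1 : Wm *ᵥ z = Wm *ᵥ ((2 : ℂ)⁻¹ • (z - DZ Z *ᵥ z)) := by
      rw [mulVec_smul, mulVec_sub, mulVec_mulVec, hWD, neg_mulVec, sub_neg_eq_add, ← two_smul ℂ,
        smul_smul, inv_mul_cancel₀ two_ne_zero, one_smul]
    have h2 : In F q ((2 : ℂ)⁻¹ • (z - DZ Z *ᵥ z)) := by
      have h3 := hz.map F hDc
      unfold In at h3 hz ⊢
      rw [mulVec_smul, mulVec_sub, hz, h3]
    rw [h1, F.rec_sum q _ h2, mulVec_sum]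
    refine Finset.sum_congr rfl fun x _ => ?_
    rw [mulVec_smul, F.hCo]
    congr 2
    change ww F.O (F.ev (F.inv x)) ((2 : ℂ)⁻¹ • (z - DZ Z *ᵥ z)) = _
    rw [ww_smul_right, sub_eq_add_neg, ww_add_right, ww_neg_right, hav, ww_smul_left, ww_add_left,
      K.D_skew F]
  -- second formula
  have f2 : ∀ q z, In F q z → Wm *ᵥ z = ∑ x, ((F.jj (F.inv x))⁻¹ * ww F.O (Wm *ᵥ F.ev x) z) •
      av x := by
    intro q z hz
    rw [← sub_eq_zero]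
    have hin : In F q (Wm *ᵥ z - ∑ x, ((F.jj (F.inv x))⁻¹ * ww F.O (Wm *ᵥ F.ev x) z) • av x) := by
      have h1 := hz.map F hWc
      unfold In at h1 ⊢
      rw [mulVec_sub, h1, mulVec_sum]
      congr 1
      refine Finset.sum_congr rfl fun x _ => ?_
      rw [mulVec_smul]
      by_cases hq : q = F.b (F.cls x)
      · have h2 := (havP x).1
        rw [← hq] at h2
        unfold In at h2
        rw [h2]
      · rw [om_ne F (hbvP x).1 hz hq, mul_zero, zero_smul, zero_smul]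
    refine om_rad F hin fun y hy => ?_
    have h1 := f1 _ y hy
    have h2 : ww F.O (∑ x, ((F.jj (F.inv x))⁻¹ * ww F.O (Wm *ᵥ F.ev x) z) • av x) y =
        ww F.O (Wm *ᵥ y) z := by
      rw [h1, ww_sum_left, ww_sum_left]
      refine Finset.sum_congr rfl fun x _ => ?_
      rw [ww_smul_left, ww_smul_left]
      ring
    have h3 : ww F.O (Wm *ᵥ z) y = ww F.O (Wm *ᵥ y) z := by
      rw [K.skew F hWR, ww_anti F.OT, neg_neg]
    rw [sub_eq_add_neg, ww_add_left, ww_neg_left, h2, h3, add_neg_cancel]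
  have hsum : Wm = ∑ x, ((2 : ℂ)⁻¹ * (F.jj (F.inv x))⁻¹) • X x := by
    refine ext_basic F hWc (Cm.sum _ fun x _ => (Cm.of_mem (hX x).1).smul _) fun q z hz => ?_
    have h1 : Wm *ᵥ z = (2 : ℂ)⁻¹ • (Wm *ᵥ z) + (2 : ℂ)⁻¹ • (Wm *ᵥ z) := by
      rw [← add_smul]
      norm_num
    rw [h1]
    nth_rewrite 1 [f1 q z hz]
    rw [f2 q z hz, sum_mulVec, Finset.smul_sum, Finset.smul_sum, ← Finset.sum_add_distrib]
    refine Finset.sum_congr rfl fun x _ => ?_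
    rw [smul_mulVec, (hX x).2 q z hz]
    module
  apply hθW
  rw [hsum, map_sum]
  exact Finset.sum_eq_zero fun x _ => by rw [map_smul, hθX, smul_zero]

end Pool.Agent.Q2.UW
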