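import Mathlib
import Pool.Agent.Q2.UW.KilB

set_option autoImplicit false

namespace Pool.Agent.Q2.UW

open Matrix Module Pool.Agent.H204R3.CM Pool.Agent.H204R3.SP Pool.Agent.Y4.K

open Pool.Agent.W437.HP (EE EE_apply EE_self IsSp)
open Pool.Agent.Y4.H (LZ Ct D_mem_LZ)
open Pool.Agent.Q180.WT (Fr S_memtr exists_fr)

/-- a linear map which is constant on the fibres of another one -/
theorem exists_factor {A B C : Type} [AddCommGroup A] [Module ℂ A] [AddCommGroup B] [Module ℂ B]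
    [AddCommGroup C] [Module ℂ C] (τ : A →ₗ[ℂ] B) (ρ : A →ₗ[ℂ] C) (h : ∀ x, τ x = 0 → ρ x = 0) :
    ∃ θ : B →ₗ[ℂ] C, ∀ x, θ (τ x) = ρ x := by
  obtain ⟨s, hs⟩ := LinearMap.exists_rightInverse_of_surjective τ.rangeRestrict
    (LinearMap.range_rangeRestrict τ)
  obtain ⟨θ, hθ⟩ := LinearMap.exists_extend (ρ.comp s)
  refine ⟨θ, fun x => ?_⟩
  have h1 : θ (τ x) = ρ (s (τ.rangeRestrict x)) := LinearMap.congr_fun hθ (τ.rangeRestrict x)
  have h2 : τ.rangeRestrict (s (τ.rangeRestrict x)) = τ.rangeRestrict x :=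
    LinearMap.congr_fun hs (τ.rangeRestrict x)
  have h3 : τ (s (τ.rangeRestrict x)) = τ x := congrArg Subtype.val h2
  rw [h1, ← sub_eq_zero, ← map_sub]
  exact h _ (by rw [map_sub, h3, sub_self])

/-- JOB UKIL -/
theorem kil (hmem : S_memtr) : Pool.Agent.Q180.UW.S_kil := by
  intro g Z M hcop hsep hpl 𝓛 _ _ br N _ _ _ _ w ρ τ hw hn hρ hsp hfull hτ hτc hτs hsurj δ hδ hδD
  by_contra hcon
  push Not at hcon
  obtain ⟨F⟩ := exists_fr M hcop
  obtain ⟨θ, hθ⟩ := exists_factor τ ρ hcon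
  have hb : ∀ p, F.b p ≠ p := by
    intro p hp
    have h1 := F.Dt.iso p
    rw [hp] at h1
    exact (hpl (F.ρ p)).1 ⟨_, _, h1⟩
  have K : KD Z w (LinearMap.range τ) θ :=
    { alt := hw
      nd := hn
      le := fun W hW => hsurj W hW
      cm := by
        rintro _ ⟨X, rfl⟩
        exact hτc X
      sym := by
        rintro _ ⟨X, rfl⟩
        exact hτs X
      br := by
        rintro _ ⟨X, rfl⟩ _ ⟨Y, rfl⟩
        refine ⟨⟨br X Y, hτ X Y⟩, ?_⟩
        rw [← hτ, hθ, hθ, hθ, hρ]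
      sp := by
        rintro _ ⟨X, rfl⟩
        rw [hθ]
        exact hsp X
      full := by
        intro x y
        obtain ⟨X, hX⟩ := hfull x y
        exact ⟨τ X, ⟨X, rfl⟩, by rw [hθ, hX]⟩
      sq := by rw [← hδD, hθ, hδ] }
  exact K.false F hcop hsep hmem hb fun φ => (hpl φ).2

end Pool.Agent.Q2.UW
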