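import Pool.Agent.Q180.UW.StmL

/-!
# Job ULIN: linear algebra over the field generated by an endomorphism
-/

set_option autoImplicit false

namespace Pool.Agent.Q2.UW

open Matrix Module Polynomial Pool.Agent.W437.HP

/-- a basis adapted to the action of the field -/
theorem lin_basis (B : Type) [Fintype B] [DecidableEq B] (P : ℚ[X]) (φ : Matrix B B ℚ) (n : ℕ)
    (hP : Irreducible P) (h0 : aeval φ P = 0) (hc : Fintype.card B = P.natDegree * n) :
    ∃ (x : Fin n → B → ℚ) (b : Module.Basis (Fin P.natDegree × Fin n) ℚ (B → ℚ)),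
      ∀ i a, b (i, a) = (φ ^ (i : ℕ)) *ᵥ x a := by
  classical
  have hP0 : P ≠ 0 := hP.ne_zero
  let f0 : ℚ[X] →ₐ[ℚ] Module.End ℚ (B → ℚ) := aeval (Matrix.toLinAlgEquiv' φ)
  have hf0 : ∀ p : ℚ[X], f0 p = Matrix.toLinAlgEquiv' (aeval φ p) := fun p =>
    aeval_algHom_apply (Matrix.toLinAlgEquiv' : Matrix B B ℚ ≃ₐ[ℚ] _) φ p
  have hker : ∀ p ∈ Ideal.span {P}, f0 p = 0 := by
    intro p hp
    obtain ⟨q, rfl⟩ := Ideal.mem_span_singleton'.mp hp
    rw [hf0, map_mul, h0, mul_zero, map_zero]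
  let f : AdjoinRoot P →ₐ[ℚ] Module.End ℚ (B → ℚ) := Ideal.Quotient.liftₐ (Ideal.span {P}) f0 hker
  have hfmk : ∀ p : ℚ[X], f (AdjoinRoot.mk P p) = Matrix.toLinAlgEquiv' (aeval φ p) := by
    intro p
    rw [← hf0]
    rfl
  have _ : Fact (Irreducible P) := ⟨hP⟩
  let : Module (AdjoinRoot P) (B → ℚ) := Module.compHom (B → ℚ) (f : AdjoinRoot P →+* Module.End ℚ (B → ℚ))
  have hsm : ∀ (z : AdjoinRoot P) (w : B → ℚ), z • w = f z w := fun z w => rfl
  have : IsScalarTower ℚ (AdjoinRoot P) (B → ℚ) := ⟨by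
    intro q z w
    rw [hsm, hsm, map_smul, LinearMap.smul_apply]⟩
  have : Module.Finite (AdjoinRoot P) (B → ℚ) := Module.Finite.of_restrictScalars_finite ℚ _ _
  have hfr : finrank ℚ (AdjoinRoot P) = P.natDegree := by
    rw [(AdjoinRoot.powerBasis hP0).finrank]
    rfl
  have hfr2 : finrank (AdjoinRoot P) (B → ℚ) = n := by
    have h1 := finrank_mul_finrank ℚ (AdjoinRoot P) (B → ℚ)
    rw [hfr, Module.finrank_fintype_fun_eq_card, hc] at h1
    exact Nat.eq_of_mul_eq_mul_left hP.natDegree_pos h1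
  let bW : Module.Basis (Fin n) (AdjoinRoot P) (B → ℚ) := finBasisOfFinrankEq _ _ hfr2
  let bE : Module.Basis (Fin P.natDegree) ℚ (AdjoinRoot P) := (AdjoinRoot.powerBasis hP0).basis
  refine ⟨bW, bE.smulTower bW, fun i a => ?_⟩
  rw [Module.Basis.smulTower_apply, hsm]
  have h1 : bE i = AdjoinRoot.mk P (X ^ (i : ℕ)) := by
    rw [map_pow, AdjoinRoot.mk_X]
    exact (AdjoinRoot.powerBasis hP0).basis_eq_pow i
  rw [h1, hfmk, map_pow, aeval_X]
  rfl

/-- the Lagrange polynomial of a root -/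
noncomputable def lag (P : ℚ[X]) (μ : ℂ) : ℂ[X] :=
  C ((derivative (P.map (algebraMap ℚ ℂ))).eval μ)⁻¹ * (P.map (algebraMap ℚ ℂ) /ₘ (X - C μ))

theorem lag_map (P : ℚ[X]) (μ : ℂ) (σ : ℂ ≃+* ℂ) :
    (lag P μ).map (σ : ℂ →+* ℂ) = lag P (σ μ) := by
  have h1 : (P.map (algebraMap ℚ ℂ)).map (σ : ℂ →+* ℂ) = P.map (algebraMap ℚ ℂ) := by
    rw [Polynomial.map_map]
    congr 1
    exact Subsingleton.elim _ _
  unfold lag
  rw [Polynomial.map_mul, map_C, map_divByMonic _ (monic_X_sub_C μ), h1, Polynomial.map_sub, map_X,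
    map_C]
  have h2 : (σ : ℂ →+* ℂ) ((derivative (P.map (algebraMap ℚ ℂ))).eval μ)⁻¹ =
      ((derivative (P.map (algebraMap ℚ ℂ))).eval (σ μ))⁻¹ := by
    rw [map_inv₀]
    congr 1
    have h3 : (derivative (P.map (algebraMap ℚ ℂ))).map (σ : ℂ →+* ℂ) =
        derivative (P.map (algebraMap ℚ ℂ)) := by
      rw [← derivative_map, h1]
    have h4 := eval_map_apply (f := (σ : ℂ →+* ℂ)) (p := derivative (P.map (algebraMap ℚ ℂ))) μ
    rw [h3] at h4
    exact h4.symm
  rw [h2]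
  rfl

theorem lag_eval (P : ℚ[X]) (hP : Irreducible P) (μ ν : ℂ) (hμ : aeval μ P = 0)
    (hν : aeval ν P = 0) : (lag P μ).eval ν = if ν = μ then 1 else 0 := by
  set Pc : ℂ[X] := P.map (algebraMap ℚ ℂ) with hPc
  have hμ' : Pc.eval μ = 0 := by rw [hPc, eval_map_algebraMap]; exact hμ
  have hν' : Pc.eval ν = 0 := by rw [hPc, eval_map_algebraMap]; exact hν
  have hsep : Pc.Separable := hP.separable.map
  have hfac : (X - C μ) * (Pc /ₘ (X - C μ)) = Pc := mul_divByMonic_eq_iff_isRoot.mpr hμ'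
  have hder : (derivative Pc).eval μ = (Pc /ₘ (X - C μ)).eval μ := by
    conv_lhs => rw [← hfac]
    simp [derivative_mul]
  have hne : (derivative Pc).eval μ ≠ 0 := by
    have := hsep.eval₂_derivative_ne_zero (RingHom.id ℂ) (x := μ) (by
      rw [eval₂_id]; exact hμ')
    rwa [eval₂_id] at this
  split_ifs with h
  · subst h
    unfold lag
    rw [eval_mul, eval_C, ← hPc, ← hder]
    exact inv_mul_cancel₀ hne
  · have h1 : (Pc /ₘ (X - C μ)).eval ν = 0 := by
      have h2 := hν'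
      rw [← hfac, eval_mul, eval_sub, eval_X, eval_C] at h2
      exact (mul_eq_zero.mp h2).resolve_left (sub_ne_zero.mpr h)
    unfold lag
    rw [eval_mul, ← hPc, h1, mul_zero]

theorem lag_deg (P : ℚ[X]) (hP : Irreducible P) (μ : ℂ) :
    (lag P μ).natDegree < P.natDegree := by
  have h1 : (lag P μ).natDegree ≤ (P.map (algebraMap ℚ ℂ) /ₘ (X - C μ)).natDegree := by
    unfold lag
    exact natDegree_C_mul_le _ _
  have h2 : (P.map (algebraMap ℚ ℂ) /ₘ (X - C μ)).natDegree = P.natDegree - 1 := by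
    rw [natDegree_divByMonic _ (monic_X_sub_C μ), natDegree_X_sub_C, natDegree_map]
  have h3 := hP.natDegree_pos
  omega

theorem lag_sum (P : ℚ[X]) (hP : Irreducible P) (μ : ℂ) (ν : ℂ) (hμ : aeval μ P = 0)
    (hν : aeval ν P = 0) :
    ∑ i : Fin P.natDegree, ν ^ (i : ℕ) * (lag P μ).coeff i = if ν = μ then 1 else 0 := by
  rw [← lag_eval P hP μ ν hμ hν, eval_eq_sum_range' (lag_deg P hP μ), ← Fin.sum_univ_eq_sum_range
    (fun i => (lag P μ).coeff i * ν ^ i)]
  exact Finset.sum_congr rfl fun i _ => mul_comm _ _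

theorem lag_dual (P : ℚ[X]) (hP : Irreducible P) (i j : Fin P.natDegree) :
    ∑ μ ∈ (P.aroots ℂ).toFinset, (lag P μ).coeff j * μ ^ (i : ℕ) = if j = i then 1 else 0 := by
  classical
  have hmem : ∀ μ : (P.aroots ℂ).toFinset, aeval (μ : ℂ) P = 0 := by
    intro μ
    have := μ.2
    rw [Multiset.mem_toFinset, mem_aroots] at this
    exact this.2
  set A : Matrix (P.aroots ℂ).toFinset (Fin P.natDegree) ℂ := Matrix.of fun ν i => (ν : ℂ) ^ (i : ℕ)
  set D : Matrix (Fin P.natDegree) (P.aroots ℂ).toFinset ℂ :=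
    Matrix.of fun i μ => (lag P μ).coeff i
  have h1 : A * D = 1 := by
    ext ν μ
    rw [Matrix.mul_apply]
    simp only [A, D, Matrix.of_apply]
    rw [lag_sum P hP μ ν (hmem μ) (hmem ν), Matrix.one_apply]
    simp only [Subtype.ext_iff]
  have hcard : Fintype.card (P.aroots ℂ).toFinset = Fintype.card (Fin P.natDegree) := by
    have := card_rootSet_eq_natDegree (K := ℂ) hP.separable (IsAlgClosed.splits _)
    rw [Fintype.card_fin, ← this]
    rfl
  have h2 : D * A = 1 := (Matrix.mul_eq_one_comm_of_card_eq _ _ _ hcard).mp h1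
  have h3 := congrFun (congrFun h2 j) i
  rw [Matrix.mul_apply, Matrix.one_apply] at h3
  simp only [A, D, Matrix.of_apply] at h3
  rw [← h3, ← Finset.sum_coe_sort]


/-- JOB ULIN, Mathlib version -/
theorem lin_core (B : Type) [Fintype B] [DecidableEq B] (P : ℚ[X]) (φ : Matrix B B ℚ) (n : ℕ)
    (hP : Irreducible P) (h0 : aeval φ P = 0) (hc : Fintype.card B = P.natDegree * n) :
    ∃ (Q : ℂ → Matrix (Fin n) B ℂ) (V : ℂ → Matrix B (Fin n) ℂ),
      (∀ μ, aeval μ P = 0 → Q μ * V μ = 1 ∧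
        (∀ ν, aeval ν P = 0 → ν ≠ μ → Q μ * V ν = 0) ∧
        Q μ * cK ℂ φ = μ • Q μ ∧ cK ℂ φ * V μ = μ • V μ ∧
        ∀ σ : ℂ ≃+* ℂ, (Q μ).map (σ : ℂ →+* ℂ) = Q (σ μ) ∧ (V μ).map (σ : ℂ →+* ℂ) = V (σ μ)) ∧
      ∑ μ ∈ (P.aroots ℂ).toFinset, V μ * Q μ = 1 := by
  classical
  obtain ⟨x, b, hb⟩ := lin_basis B P φ n hP h0 hc
  set S : Matrix B (Fin P.natDegree × Fin n) ℚ := (Pi.basisFun ℚ B).toMatrix b with hS
  set T : Matrix (Fin P.natDegree × Fin n) B ℚ := b.toMatrix (Pi.basisFun ℚ B) with hT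
  have hST : S * T = 1 := Module.Basis.toMatrix_mul_toMatrix_flip _ _
  have hTS : T * S = 1 := Module.Basis.toMatrix_mul_toMatrix_flip _ _
  have hSTc : cK ℂ S * cK ℂ T = 1 := by rw [← cK_mul, hST, cK_one]
  have hTSc : cK ℂ T * cK ℂ S = 1 := by rw [← cK_mul, hTS, cK_one]
  have hScol : ∀ (i : Fin P.natDegree) (a : Fin n) (β : B),
      S β (i, a) = ((φ ^ (i : ℕ)) *ᵥ x a) β := by
    intro i a β
    rw [← hb]
    rfl
  set Pw : ℂ → Matrix (Fin n) (Fin P.natDegree × Fin n) ℂ := fun μ =>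
    Matrix.of fun a k => if k.2 = a then μ ^ (k.1 : ℕ) else 0 with hPw
  set Lg : ℂ → Matrix (Fin P.natDegree × Fin n) (Fin n) ℂ := fun μ =>
    Matrix.of fun k a => if k.2 = a then (lag P μ).coeff k.1 else 0 with hLg
  have hPL : ∀ μ ν, aeval μ P = 0 → aeval ν P = 0 →
      Pw μ * Lg ν = if μ = ν then 1 else 0 := by
    intro μ ν hμ hν
    ext a a'
    rw [Matrix.mul_apply, Fintype.sum_prod_type]
    simp only [hPw, hLg, Matrix.of_apply]
    have h1 : ∀ i : Fin P.natDegree, ∑ c : Fin n, (if c = a then μ ^ (i : ℕ) else 0) *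
        (if c = a' then (lag P ν).coeff i else 0) =
          if a = a' then μ ^ (i : ℕ) * (lag P ν).coeff i else 0 := by
      intro i
      rw [Finset.sum_eq_single a]
      · rw [if_pos rfl, mul_ite, mul_zero]
      · intro c _ hca
        rw [if_neg hca, zero_mul]
      · intro h
        exact absurd (Finset.mem_univ a) h
    rw [Finset.sum_congr rfl fun i _ => h1 i]
    by_cases haa : a = a'
    · subst haa
      simp only [if_true]
      rw [lag_sum P hP ν μ hν hμ]
      split_ifs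
      · rw [Matrix.one_apply_eq]
      · rfl
    · simp only [if_neg haa, Finset.sum_const_zero]
      split_ifs
      · rw [Matrix.one_apply_ne haa]
      · rfl
  have hLP : ∑ μ ∈ (P.aroots ℂ).toFinset, Lg μ * Pw μ = 1 := by
    ext k k'
    rw [Matrix.sum_apply]
    have h1 : ∀ μ : ℂ, (Lg μ * Pw μ) k k' =
        if k.2 = k'.2 then (lag P μ).coeff k.1 * μ ^ (k'.1 : ℕ) else 0 := by
      intro μ
      rw [Matrix.mul_apply]
      simp only [hPw, hLg, Matrix.of_apply]
      rw [Finset.sum_eq_single k.2]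
      · rw [if_pos rfl, mul_ite, mul_zero]
        simp only [eq_comm]
      · intro c _ hca
        rw [if_neg (Ne.symm hca), zero_mul]
      · intro h
        exact absurd (Finset.mem_univ _) h
    rw [Finset.sum_congr rfl fun μ _ => h1 μ, Matrix.one_apply]
    by_cases hkk : k.2 = k'.2
    · simp only [if_pos hkk]
      rw [lag_dual P hP k'.1 k.1]
      by_cases h2 : k.1 = k'.1
      · rw [if_pos h2, if_pos (Prod.ext h2 hkk)]
      · rw [if_neg h2, if_neg fun h => h2 (congrArg Prod.fst h)]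
    · simp only [if_neg hkk, Finset.sum_const_zero]
      rw [if_neg fun h => hkk (congrArg Prod.snd h)]
  have hcm : ∀ (σ : ℂ ≃+* ℂ) {m m' : Type} (M : Matrix m m' ℚ),
      (cK ℂ M).map (σ : ℂ →+* ℂ) = cK ℂ M := by
    intro σ m m' M
    ext i j
    simp [cK]
  -- the key identity
  have key : ∀ μ, aeval μ P = 0 → ∀ (a : Fin n) (q : ℚ[X]),
      (Pw μ * cK ℂ T) *ᵥ (fun β => (((aeval φ q) *ᵥ x a) β : ℂ)) =
        (aeval μ q : ℂ) • (Pi.single a 1 : Fin n → ℂ) := by
    intro μ hμ a q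
    let F : ℚ[X] →ₗ[ℚ] (Fin n → ℂ) :=
      { toFun := fun q => (Pw μ * cK ℂ T) *ᵥ (fun β => (((aeval φ q) *ᵥ x a) β : ℂ))
        map_add' := fun p q => by
          rw [← Matrix.mulVec_add]
          congr 1
          funext β
          rw [map_add, Matrix.add_mulVec]
          simp
        map_smul' := fun c q => by
          have e1 : (fun β => (((aeval φ (c • q)) *ᵥ x a) β : ℂ)) =
              (c : ℂ) • (fun β => (((aeval φ q) *ᵥ x a) β : ℂ)) := by
            funext β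
            rw [map_smul, Matrix.smul_mulVec]
            simp
          rw [e1, Matrix.mulVec_smul, RingHom.id_apply]
          funext i
          simp [Pi.smul_apply, Rat.smul_def] }
    have hF : ∀ q, F q = (Pw μ * cK ℂ T) *ᵥ (fun β => (((aeval φ q) *ᵥ x a) β : ℂ)) := fun q => rfl
    have hF0 : ∀ q, F (P * q) = 0 := by
      intro q
      rw [hF, map_mul, h0, zero_mul]
      have e1 : (fun β => (((0 : Matrix B B ℚ) *ᵥ x a) β : ℂ)) = 0 := by
        funext β
        simp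
      rw [e1, Matrix.mulVec_zero]
    have hFX : ∀ i : Fin P.natDegree, F (X ^ (i : ℕ)) = μ ^ (i : ℕ) • (Pi.single a 1 : Fin n → ℂ) := by
      intro i
      have e1 : (fun β => (((aeval φ (X ^ (i : ℕ) : ℚ[X])) *ᵥ x a) β : ℂ)) =
          cK ℂ S *ᵥ (Pi.single (i, a) 1) := by
        funext β
        rw [Matrix.mulVec_single_one, map_pow, aeval_X]
        show _ = ((S β (i, a) : ℚ) : ℂ)
        rw [hScol]
      rw [hF, e1, Matrix.mulVec_mulVec, Matrix.mul_assoc, hTSc, Matrix.mul_one,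
        Matrix.mulVec_single_one]
      funext a'
      simp only [hPw, Matrix.col_apply, Matrix.of_apply, Pi.smul_apply, smul_eq_mul]
      by_cases haa : a = a'
      · subst haa
        rw [if_pos rfl, Pi.single_eq_same, mul_one]
      · rw [if_neg haa, Pi.single_eq_of_ne (Ne.symm haa), mul_zero]
    rw [← hF]
    have hdiv : P * (q / P) + q % P = q := EuclideanDomain.div_add_mod q P
    have hr : (q % P).natDegree < P.natDegree := by
      rcases eq_or_ne (q % P) 0 with h | h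
      · rw [h, natDegree_zero]
        exact hP.natDegree_pos
      · exact natDegree_lt_natDegree h (EuclideanDomain.mod_lt q hP.ne_zero)
    have e2 : F q = F (q % P) := by
      conv_lhs => rw [← hdiv]
      rw [map_add, hF0, zero_add]
    have e3 : (aeval μ q : ℂ) = aeval μ (q % P) := by
      conv_lhs => rw [← hdiv]
      rw [map_add, map_mul, hμ, zero_mul, zero_add]
    rw [e2, e3]
    have e4 : q % P = ∑ i : Fin P.natDegree, (q % P).coeff i • (X ^ (i : ℕ) : ℚ[X]) := by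
      conv_lhs => rw [as_sum_range' (q % P) _ hr]
      rw [← Fin.sum_univ_eq_sum_range (fun i => monomial i ((q % P).coeff i))]
      exact Finset.sum_congr rfl fun i _ => (smul_X_eq_monomial).symm
    rw [e4, map_sum, map_sum, Finset.sum_smul]
    refine Finset.sum_congr rfl fun i _ => ?_
    rw [map_smul, hFX, map_smul, map_pow, aeval_X]
    funext a'
    simp [Rat.smul_def, mul_assoc]
  have hQφ : ∀ μ, aeval μ P = 0 → (Pw μ * cK ℂ T) * cK ℂ φ = μ • (Pw μ * cK ℂ T) := by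
    intro μ hμ
    have h1 : (Pw μ * cK ℂ T) * cK ℂ φ * cK ℂ S = μ • Pw μ := by
      ext a' ⟨i, a⟩
      have h2 := congrFun (key μ hμ a (X ^ ((i : ℕ) + 1))) a'
      have e1 : (fun β => (((aeval φ (X ^ ((i : ℕ) + 1) : ℚ[X])) *ᵥ x a) β : ℂ)) =
          cK ℂ φ *ᵥ (cK ℂ S *ᵥ (Pi.single (i, a) 1)) := by
        have e2 : cK ℂ S *ᵥ (Pi.single (i, a) 1) =
            fun β => ((((φ ^ (i : ℕ)) *ᵥ x a) β : ℚ) : ℂ) := by
          funext β
          rw [Matrix.mulVec_single_one, ← hScol]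
          rfl
        rw [e2, map_pow, aeval_X, pow_succ', ← Matrix.mulVec_mulVec]
        funext β
        simp only [Matrix.mulVec, dotProduct, cK, Matrix.map_apply]
        push_cast
        rfl
      rw [e1, Matrix.mulVec_mulVec, Matrix.mulVec_mulVec, Matrix.mulVec_single_one,
        Matrix.col_apply] at h2
      rw [h2, map_pow, aeval_X]
      simp only [hPw, Matrix.smul_apply, Matrix.of_apply, Pi.smul_apply, smul_eq_mul]
      by_cases haa : a = a'
      · subst haa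
        rw [if_pos rfl, Pi.single_eq_same, mul_one, pow_succ']
      · rw [if_neg haa, Pi.single_eq_of_ne (Ne.symm haa), mul_zero, mul_zero]
    calc (Pw μ * cK ℂ T) * cK ℂ φ = (Pw μ * cK ℂ T) * cK ℂ φ * (cK ℂ S * cK ℂ T) := by
          rw [hSTc, Matrix.mul_one]
      _ = ((Pw μ * cK ℂ T) * cK ℂ φ * cK ℂ S) * cK ℂ T := by
          simp only [Matrix.mul_assoc]
      _ = μ • (Pw μ * cK ℂ T) := by rw [h1, Matrix.smul_mul]
  have hQV : ∀ μ ν, aeval μ P = 0 → aeval ν P = 0 →
      (Pw μ * cK ℂ T) * (cK ℂ S * Lg ν) = if μ = ν then 1 else 0 := by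
    intro μ ν hμ hν
    rw [← hPL μ ν hμ hν]
    calc (Pw μ * cK ℂ T) * (cK ℂ S * Lg ν) = Pw μ * (cK ℂ T * cK ℂ S) * Lg ν := by
          simp only [Matrix.mul_assoc]
      _ = Pw μ * Lg ν := by rw [hTSc, Matrix.mul_one]
  have htot : ∑ μ ∈ (P.aroots ℂ).toFinset, (cK ℂ S * Lg μ) * (Pw μ * cK ℂ T) = 1 := by
    calc ∑ μ ∈ (P.aroots ℂ).toFinset, (cK ℂ S * Lg μ) * (Pw μ * cK ℂ T) =
        cK ℂ S * (∑ μ ∈ (P.aroots ℂ).toFinset, Lg μ * Pw μ) * cK ℂ T := by
          rw [Matrix.mul_sum, Matrix.sum_mul]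
          exact Finset.sum_congr rfl fun μ _ => by simp only [Matrix.mul_assoc]
      _ = 1 := by rw [hLP, Matrix.mul_one, hSTc]
  refine ⟨fun μ => Pw μ * cK ℂ T, fun μ => cK ℂ S * Lg μ, ?_, htot⟩
  intro μ hμ
  refine ⟨?_, ?_, hQφ μ hμ, ?_, ?_⟩
  · have := hQV μ μ hμ hμ
    rwa [if_pos rfl] at this
  · intro ν hν hne
    have := hQV μ ν hμ hν
    rwa [if_neg (Ne.symm hne)] at this
  · have hmem : ∀ ν ∈ (P.aroots ℂ).toFinset, aeval ν P = 0 := by
      intro ν hν
      rw [Multiset.mem_toFinset, mem_aroots] at hν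
      exact hν.2
    have hμm : μ ∈ (P.aroots ℂ).toFinset := by
      rw [Multiset.mem_toFinset, mem_aroots]
      exact ⟨hP.ne_zero, hμ⟩
    calc cK ℂ φ * (cK ℂ S * Lg μ) = (∑ ν ∈ (P.aroots ℂ).toFinset,
          (cK ℂ S * Lg ν) * (Pw ν * cK ℂ T)) * (cK ℂ φ * (cK ℂ S * Lg μ)) := by
          rw [htot, Matrix.one_mul]
      _ = ∑ ν ∈ (P.aroots ℂ).toFinset, (cK ℂ S * Lg ν) *
          ((Pw ν * cK ℂ T) * cK ℂ φ * (cK ℂ S * Lg μ)) := by
          rw [Matrix.sum_mul]
          exact Finset.sum_congr rfl fun ν _ => by simp only [Matrix.mul_assoc]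
      _ = ∑ ν ∈ (P.aroots ℂ).toFinset, if ν = μ then μ • (cK ℂ S * Lg μ) else 0 := by
          refine Finset.sum_congr rfl fun ν hν => ?_
          rw [hQφ ν (hmem ν hν), Matrix.smul_mul, hQV ν μ (hmem ν hν) hμ]
          split_ifs with h
          · subst h
            rw [Matrix.mul_smul, Matrix.mul_one]
          · rw [smul_zero, Matrix.mul_zero]
      _ = μ • (cK ℂ S * Lg μ) := by
          rw [Finset.sum_ite_eq', if_pos hμm]
  · intro σ
    constructor
    · rw [Matrix.map_mul, hcm]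
      congr 1
      ext a k
      simp only [hPw, Matrix.map_apply, Matrix.of_apply]
      split_ifs
      · exact map_pow _ _ _
      · exact map_zero _
    · rw [Matrix.map_mul, hcm]
      congr 1
      ext k a
      simp only [hLg, Matrix.map_apply, Matrix.of_apply]
      split_ifs
      · rw [← lag_map, coeff_map]
      · exact map_zero _

/-- JOB ULIN -/
theorem lin : Pool.Agent.Q180.UW.S_lin := fun B _ _ P φ n hP h0 hc => lin_core B P φ n hP h0 hc

end Pool.Agent.Q2.UW
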